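import Mathlib

set_option autoImplicit false

namespace Pool.Agent.Lib.MP_63dc40_ag

open IsLocalRing TrivSqZeroExt

/-- In a noetherian local complex algebra whose Krull dimension equals the number of generators
of the maximal ideal, every nonzero tangent vector lifts to second order. -/
theorem lift_second_order (R : Type*) [CommRing R] [IsLocalRing R] [IsNoetherianRing R]
    [Algebra ℂ R] (φ : R →ₐ[ℂ] DualNumber ℂ)
    (hreg : ringKrullDim R = ((maximalIdeal R).spanFinrank : WithBot ℕ∞))
    (r₀ : R) (hr₀ : (φ r₀).snd ≠ 0) :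
    ∃ (K : Ideal R) (t : R), t ^ 3 ∈ K ∧ t ^ 2 ∉ K ∧
      ∀ r : R, ∃ z : R,
        r - (algebraMap ℂ R (φ r).fst + algebraMap ℂ R (φ r).snd * t + z * t ^ 2) ∈ K := by
  classical
  -- the value map has kernel the maximal ideal
  let ev : R →ₐ[ℂ] ℂ := (TrivSqZeroExt.fstHom ℂ ℂ ℂ).comp φ
  have hev : ∀ r, ev r = (φ r).fst := fun r => rfl
  have hevs : Function.Surjective ev := fun c => ⟨algebraMap ℂ R c, by simp⟩
  have hker : RingHom.ker ev.toRingHom = maximalIdeal R :=
    IsLocalRing.eq_maximalIdeal (RingHom.ker_isMaximal_of_surjective ev.toRingHom hevs)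
  have hm : ∀ r, r ∈ maximalIdeal R ↔ (φ r).fst = 0 := by
    intro r
    rw [← hker, RingHom.mem_ker]
    rfl
  have hsub : ∀ r, r - algebraMap ℂ R (φ r).fst ∈ maximalIdeal R := by
    intro r
    rw [hm]
    simp [algebraMap_eq_inl]
  obtain ⟨s, hscard, hs⟩ := Submodule.FG.exists_span_finset_card_eq_spanFinrank
    (maximalIdeal R).fg_of_isNoetherianRing
  have hsm : ∀ a ∈ s, a ∈ maximalIdeal R := by
    intro a ha
    rw [← hs]
    exact Submodule.subset_span ha
  -- some generator is not killed by the tangent vector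
  have hy : ∃ y ∈ s, (φ y).snd ≠ 0 := by
    by_contra hcon
    push Not at hcon
    have hle : maximalIdeal R ≤ RingHom.ker φ.toRingHom := by
      rw [← hs]
      refine Submodule.span_le.2 fun a ha => ?_
      change φ a = 0
      ext
      · simpa using (hm a).1 (hsm a ha)
      · simpa using hcon a ha
    have := hle (hsub r₀)
    change φ _ = 0 at this
    have h2 := congrArg TrivSqZeroExt.snd this
    simp [algebraMap_eq_inl] at h2
    exact hr₀ h2
  obtain ⟨y, hys, hy⟩ := hy
  set t : R := algebraMap ℂ R ((φ y).snd)⁻¹ * y with ht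
  have htm : t ∈ maximalIdeal R := Ideal.mul_mem_left _ _ (hsm y hys)
  have hφt : φ t = DualNumber.eps := by
    ext
    · simpa using (hm t).1 htm
    · simp [ht, algebraMap_eq_inl, hy]
  let s' : Finset R := (s.erase y).image fun a => a - algebraMap ℂ R (φ a).snd * t
  let J : Ideal R := Ideal.span (s' : Set R)
  have hJφ : J ≤ RingHom.ker φ.toRingHom := by
    refine Ideal.span_le.2 fun b hb => ?_
    simp only [s', Finset.coe_image, Set.mem_image, Finset.mem_coe] at hb
    obtain ⟨a, ha, rfl⟩ := hb
    change φ _ = 0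
    have ha0 := (hm a).1 (hsm a (Finset.mem_of_mem_erase ha))
    ext
    · simp [hφt, ha0]
    · simp [hφt, algebraMap_eq_inl]
  have hJm : J ≤ maximalIdeal R := by
    intro b hb
    have : φ b = 0 := hJφ hb
    rw [hm, this]
    simp
  -- the maximal ideal is generated by J and t
  have hgen : ∀ p ∈ maximalIdeal R, ∃ r : R, p - r * t ∈ J := by
    intro p hp
    rw [← hs] at hp
    induction hp using Submodule.span_induction with
    | mem a ha =>
      by_cases hay : a = y
      · refine ⟨algebraMap ℂ R (φ y).snd, ?_⟩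
        rw [hay, ht, ← mul_assoc, ← map_mul, mul_inv_cancel₀ hy, map_one, one_mul, sub_self]
        exact J.zero_mem
      · refine ⟨algebraMap ℂ R (φ a).snd, Ideal.subset_span ?_⟩
        simp only [s', Finset.coe_image, Set.mem_image, Finset.mem_coe]
        exact ⟨a, Finset.mem_erase.2 ⟨hay, ha⟩, rfl⟩
    | zero => exact ⟨0, by simp⟩
    | add a b _ _ ha hb =>
      obtain ⟨r1, h1⟩ := ha
      obtain ⟨r2, h2⟩ := hb
      refine ⟨r1 + r2, ?_⟩
      have := J.add_mem h1 h2
      convert this using 1
      ring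
    | smul c a _ ha =>
      obtain ⟨r1, h1⟩ := ha
      refine ⟨c * r1, ?_⟩
      have := J.mul_mem_left c h1
      convert this using 1
      simp only [smul_eq_mul]
      ring
  refine ⟨J ⊔ Ideal.span {t ^ 3}, t, ?_, ?_, ?_⟩
  · exact Ideal.mem_sup_right (Ideal.subset_span rfl)
  · intro h2
    obtain ⟨j, hj, b, hb, hjb⟩ := Submodule.mem_sup.1 h2
    obtain ⟨c, rfl⟩ := Ideal.mem_span_singleton'.1 hb
    have hu : IsUnit (1 - c * t) := by
      apply IsLocalRing.isUnit_one_sub_self_of_mem_nonunits
      exact (Ideal.mul_mem_left _ c htm : c * t ∈ maximalIdeal R)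
    have ht2 : t ^ 2 ∈ J := by
      obtain ⟨v, hv⟩ := hu.exists_left_inv
      have : t ^ 2 = v * j := by
        have hj' : j = (1 - c * t) * t ^ 2 := by linear_combination hjb
        rw [hj', ← mul_assoc, hv, one_mul]
      rw [this]
      exact J.mul_mem_left _ hj
    have hmin : maximalIdeal R ∈ J.minimalPrimes := by
      refine ⟨⟨inferInstance, hJm⟩, ?_⟩
      rintro q ⟨hq, hJq⟩ _
      intro p hp
      obtain ⟨r, hr⟩ := hgen p hp
      have htq : t ∈ q := hq.mem_of_pow_mem 2 (hJq ht2)
      have := q.add_mem (hJq hr) (q.mul_mem_left r htq)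
      simpa using this
    have hh := Ideal.height_le_card_of_mem_minimalPrimes_span_finset hmin
    have hc : s'.card + 1 ≤ s.card := by
      have h1 : s'.card ≤ (s.erase y).card := Finset.card_image_le
      have h2 := Finset.card_erase_add_one hys
      omega
    rw [← IsLocalRing.maximalIdeal_height_eq_ringKrullDim, ← hscard] at hreg
    have hreg' : (maximalIdeal R).height = (s.card : ℕ∞) := by
      exact_mod_cast hreg
    rw [hreg'] at hh
    have : s.card ≤ s'.card := by exact_mod_cast hh
    omega
  · intro r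
    obtain ⟨r1, h1⟩ := hgen _ (hsub r)
    obtain ⟨r2, h2⟩ := hgen _ (hsub r1)
    have hφ1 : (φ r1).fst = (φ r).snd := by
      have h0 : φ _ = 0 := hJφ h1
      have := congrArg TrivSqZeroExt.snd h0
      simp [hφt, algebraMap_eq_inl, sub_eq_zero] at this
      exact this.symm
    refine ⟨r2, Ideal.mem_sup_left ?_⟩
    have := J.add_mem h1 (J.mul_mem_left t h2)
    convert this using 1
    rw [hφ1]
    ring

end Pool.Agent.Lib.MP_63dc40_ag
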