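import Mathlib

set_option autoImplicit false
set_option linter.unusedSimpArgs false

namespace Pool.Agent.Lib.MP_63dc40_ag

open MvPolynomial

/-- Coefficients of the logarithmic form with first integral F / (x y^2 z^3), where
F = w z^5 + x^6 + y^6 + w^6 and (x, y, z, w) = (X 0, X 1, X 2, X 3). -/
noncomputable def om (B : Type*) [CommRing B] : Fin 4 → MvPolynomial (Fin 4) B :=
  ![X 1 * X 2 * (5 * X 0 ^ 6 - X 1 ^ 6 - X 3 ^ 6 - X 3 * X 2 ^ 5),
    X 0 * X 2 * (4 * X 1 ^ 6 - 2 * X 0 ^ 6 - 2 * X 3 ^ 6 - 2 * (X 3 * X 2 ^ 5)),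
    X 0 * X 1 * (2 * (X 3 * X 2 ^ 5) - 3 * X 0 ^ 6 - 3 * X 1 ^ 6 - 3 * X 3 ^ 6),
    X 0 * X 1 * X 2 * (X 2 ^ 5 + 6 * X 3 ^ 5)]

/-- The obstructed tangent vector. -/
noncomputable def et (B : Type*) [CommRing B] : Fin 4 → MvPolynomial (Fin 4) B :=
  ![X 0 * X 1 ^ 3 * X 2 ^ 4,
    X 0 * X 2 * (X 3 * X 2 ^ 5 + X 0 ^ 6 + X 1 ^ 6 + X 3 ^ 6),
    -(X 0 ^ 2 * X 1 ^ 3 * X 2 ^ 3) - X 0 * X 1 * (X 3 * X 2 ^ 5 + X 0 ^ 6 + X 1 ^ 6 + X 3 ^ 6),
    0]

/-- The component i j k of the three-form a ∧ db. -/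
noncomputable def Th {B : Type*} [CommRing B] (a b : Fin 4 → MvPolynomial (Fin 4) B)
    (i j k : Fin 4) : MvPolynomial (Fin 4) B :=
  a i * (pderiv j (b k) - pderiv k (b j)) + a j * (pderiv k (b i) - pderiv i (b k))
    + a k * (pderiv i (b j) - pderiv j (b i))

variable {B : Type*} [CommRing B]

theorem pderiv_ofNat (i : Fin 4) (n : ℕ) [n.AtLeastTwo] :
    pderiv i (OfNat.ofNat n : MvPolynomial (Fin 4) B) = 0 := by
  have : (OfNat.ofNat n : MvPolynomial (Fin 4) B) = C (OfNat.ofNat n) := by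
    rw [map_ofNat]
  rw [this, pderiv_C]

theorem pd2 (i : Fin 4) : pderiv i (2 : MvPolynomial (Fin 4) B) = 0 := pderiv_ofNat i 2
theorem pd3 (i : Fin 4) : pderiv i (3 : MvPolynomial (Fin 4) B) = 0 := pderiv_ofNat i 3
theorem pd4 (i : Fin 4) : pderiv i (4 : MvPolynomial (Fin 4) B) = 0 := pderiv_ofNat i 4
theorem pd5 (i : Fin 4) : pderiv i (5 : MvPolynomial (Fin 4) B) = 0 := pderiv_ofNat i 5
theorem pd6 (i : Fin 4) : pderiv i (6 : MvPolynomial (Fin 4) B) = 0 := pderiv_ofNat i 6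

theorem d_om_01 : pderiv 0 (om B 1) - pderiv 1 (om B 0) =
    X 2 * (11 * X 1 ^ 6 - 19 * X 0 ^ 6 - X 3 ^ 6 - X 3 * X 2 ^ 5) := by
  simp [om, pderiv_mul, pderiv_pow, pd2, pd3, pd4, pd5, pd6, -Derivation.leibniz, -Derivation.leibniz_pow]
  ring

theorem d_om_02 : pderiv 0 (om B 2) - pderiv 2 (om B 0) =
    X 1 * (8 * (X 3 * X 2 ^ 5) - 26 * X 0 ^ 6 - 2 * X 1 ^ 6 - 2 * X 3 ^ 6) := by
  simp [om, pderiv_mul, pderiv_pow, pd2, pd3, pd4, pd5, pd6, -Derivation.leibniz, -Derivation.leibniz_pow]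
  ring

theorem d_om_03 : pderiv 0 (om B 3) - pderiv 3 (om B 0) =
    2 * X 1 * X 2 * (X 2 ^ 5 + 6 * X 3 ^ 5) := by
  simp [om, pderiv_mul, pderiv_pow, pd2, pd3, pd4, pd5, pd6, -Derivation.leibniz, -Derivation.leibniz_pow]
  ring

theorem d_om_12 : pderiv 1 (om B 2) - pderiv 2 (om B 1) =
    X 0 * (14 * (X 3 * X 2 ^ 5) - X 0 ^ 6 - 25 * X 1 ^ 6 - X 3 ^ 6) := by
  simp [om, pderiv_mul, pderiv_pow, pd2, pd3, pd4, pd5, pd6, -Derivation.leibniz, -Derivation.leibniz_pow]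
  ring

theorem d_om_13 : pderiv 1 (om B 3) - pderiv 3 (om B 1) =
    3 * X 0 * X 2 * (X 2 ^ 5 + 6 * X 3 ^ 5) := by
  simp [om, pderiv_mul, pderiv_pow, pd2, pd3, pd4, pd5, pd6, -Derivation.leibniz, -Derivation.leibniz_pow]
  ring

theorem d_om_23 : pderiv 2 (om B 3) - pderiv 3 (om B 2) =
    4 * X 0 * X 1 * (X 2 ^ 5 + 6 * X 3 ^ 5) := by
  simp [om, pderiv_mul, pderiv_pow, pd2, pd3, pd4, pd5, pd6, -Derivation.leibniz, -Derivation.leibniz_pow]
  ring

theorem Th_swap12 (a b : Fin 4 → MvPolynomial (Fin 4) B) (i j k : Fin 4) :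
    Th a b j i k = -Th a b i j k := by
  unfold Th; ring

theorem Th_swap23 (a b : Fin 4 → MvPolynomial (Fin 4) B) (i j k : Fin 4) :
    Th a b i k j = -Th a b i j k := by
  unfold Th; ring

theorem Th_same12 (a b : Fin 4 → MvPolynomial (Fin 4) B) (i k : Fin 4) :
    Th a b i i k = 0 := by
  unfold Th; ring

theorem Th_same23 (a b : Fin 4 → MvPolynomial (Fin 4) B) (i k : Fin 4) :
    Th a b i k k = 0 := by
  unfold Th; ring

theorem Th_same13 (a b : Fin 4 → MvPolynomial (Fin 4) B) (i k : Fin 4) :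
    Th a b i k i = 0 := by
  unfold Th; ring

theorem alt_all {M : Type*} [AddCommGroup M] (f : Fin 4 → Fin 4 → Fin 4 → M)
    (s12 : ∀ i j k, f j i k = -f i j k) (s23 : ∀ i j k, f i k j = -f i j k)
    (z12 : ∀ i k, f i i k = 0) (z23 : ∀ i k, f i k k = 0) (z13 : ∀ i k, f i k i = 0)
    (h012 : f 0 1 2 = 0) (h013 : f 0 1 3 = 0) (h023 : f 0 2 3 = 0) (h123 : f 1 2 3 = 0)
    (i j k : Fin 4) : f i j k = 0 := by
  have p12 : ∀ i j k, f i j k = 0 → f j i k = 0 := fun i j k h => by rw [s12, h, neg_zero]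
  have p23 : ∀ i j k, f i j k = 0 → f i k j = 0 := fun i j k h => by rw [s23, h, neg_zero]
  have inc : ∀ i j k : Fin 4, i < j → j < k → f i j k = 0 := by
    intro i j k hij hjk
    have : (i = 0 ∧ j = 1 ∧ k = 2) ∨ (i = 0 ∧ j = 1 ∧ k = 3) ∨ (i = 0 ∧ j = 2 ∧ k = 3) ∨
        (i = 1 ∧ j = 2 ∧ k = 3) := by
      revert i j k
      decide
    rcases this with ⟨rfl, rfl, rfl⟩ | ⟨rfl, rfl, rfl⟩ | ⟨rfl, rfl, rfl⟩ | ⟨rfl, rfl, rfl⟩ <;>
      assumption
  rcases lt_trichotomy i j with hij | rfl | hij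
  · rcases lt_trichotomy j k with hjk | rfl | hjk
    · exact inc _ _ _ hij hjk
    · exact z23 _ _
    · rcases lt_trichotomy i k with hik | rfl | hik
      · exact p23 _ _ _ (inc _ _ _ hik hjk)
      · exact z13 _ _
      · exact p23 _ _ _ (p12 _ _ _ (inc _ _ _ hik hij))
  · exact z12 _ _
  · rcases lt_trichotomy i k with hik | rfl | hik
    · exact p12 _ _ _ (inc _ _ _ hij hik)
    · exact z13 _ _
    · rcases lt_trichotomy j k with hjk | rfl | hjk
      · exact p12 _ _ _ (p23 _ _ _ (inc _ _ _ hjk hik))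
      · exact z23 _ _
      · exact p12 _ _ _ (p23 _ _ _ (p12 _ _ _ (inc _ _ _ hjk hij)))

theorem Th_all (a : Fin 4 → MvPolynomial (Fin 4) B) (h012 : Th a a 0 1 2 = 0)
    (h013 : Th a a 0 1 3 = 0) (h023 : Th a a 0 2 3 = 0) (h123 : Th a a 1 2 3 = 0)
    (i j k : Fin 4) : Th a a i j k = 0 :=
  alt_all (Th a a) (Th_swap12 a a) (Th_swap23 a a) (Th_same12 a a) (Th_same23 a a)
    (Th_same13 a a) h012 h013 h023 h123 i j k

/-- First order deformation. -/
noncomputable def fo (t : B) : Fin 4 → MvPolynomial (Fin 4) B :=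
  fun i => om B i + C t * et B i

theorem Th_fo (t : B) (ht : t ^ 2 = 0) (i j k : Fin 4) : Th (fo t) (fo t) i j k = 0 := by
  have hT : (C t : MvPolynomial (Fin 4) B) ^ 2 = 0 := by rw [← map_pow, ht, map_zero]
  apply Th_all
  · have : Th (fo t) (fo t) 0 1 2 = C t ^ 2 * Th (et B) (et B) 0 1 2 := by
      simp [Th, fo, om, et, pderiv_mul, pderiv_pow, pd2, pd3, pd4, pd5, pd6, -Derivation.leibniz,
        -Derivation.leibniz_pow]
      ring
    rw [this, hT, zero_mul]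
  · have : Th (fo t) (fo t) 0 1 3 = C t ^ 2 * Th (et B) (et B) 0 1 3 := by
      simp [Th, fo, om, et, pderiv_mul, pderiv_pow, pd2, pd3, pd4, pd5, pd6, -Derivation.leibniz,
        -Derivation.leibniz_pow]
      ring
    rw [this, hT, zero_mul]
  · have : Th (fo t) (fo t) 0 2 3 = C t ^ 2 * Th (et B) (et B) 0 2 3 := by
      simp [Th, fo, om, et, pderiv_mul, pderiv_pow, pd2, pd3, pd4, pd5, pd6, -Derivation.leibniz,
        -Derivation.leibniz_pow]
      ring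
    rw [this, hT, zero_mul]
  · have : Th (fo t) (fo t) 1 2 3 = C t ^ 2 * Th (et B) (et B) 1 2 3 := by
      simp [Th, fo, om, et, pderiv_mul, pderiv_pow, pd2, pd3, pd4, pd5, pd6, -Derivation.leibniz,
        -Derivation.leibniz_pow]
      ring
    rw [this, hT, zero_mul]

theorem euler_fo (t : B) : ∑ i, X i * fo t i = 0 := by
  simp [Fin.sum_univ_four, fo, om, et]
  ring

theorem coeff_X_mul_pderiv (i : Fin 4) (p : MvPolynomial (Fin 4) B) (m : Fin 4 →₀ ℕ) :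
    coeff m (X i * pderiv i p) = (m i : B) * coeff m p := by
  induction p using MvPolynomial.induction_on' with
  | add p q hp hq => simp only [map_add, mul_add, coeff_add, hp, hq]
  | monomial n a =>
    rw [X_mul_pderiv_monomial, coeff_smul, coeff_monomial]
    split_ifs with h
    · simp [h]
    · simp

/-- The monomial x^2 y^3 z^10. -/
noncomputable def mu : Fin 4 →₀ ℕ := Finsupp.single 0 2 + Finsupp.single 1 3 + Finsupp.single 2 10

theorem obstruction (t : B) (ht : t ^ 3 = 0) (ζ : Fin 4 → MvPolynomial (Fin 4) B) :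
    coeff mu (Th (fun i => fo t i + C (t ^ 2) * ζ i) (fun i => fo t i + C (t ^ 2) * ζ i) 0 1 3)
      = -t ^ 2 := by
  have hT : (C t : MvPolynomial (Fin 4) B) ^ 3 = 0 := by rw [← map_pow, ht, map_zero]
  obtain ⟨U, V, W, h⟩ : ∃ U V W : MvPolynomial (Fin 4) B,
      Th (fun i => fo t i + C (t ^ 2) * ζ i) (fun i => fo t i + C (t ^ 2) * ζ i) 0 1 3 =
        C (t ^ 2) * (-(X 0 ^ 2 * X 1 ^ 3 * X 2 ^ 10)
          + X 1 * X 2 ^ 6 * (X 0 * pderiv 0 (ζ 1) - 2 * ζ 1)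
          + X 0 * X 2 ^ 6 * (3 * ζ 0 - X 1 * pderiv 1 (ζ 0))
          + X 0 ^ 6 * U + X 1 ^ 6 * V + X 3 * W) := by
    refine ⟨5 * X 1 * X 2 * (pderiv 1 (ζ 3) - pderiv 3 (ζ 1))
        - 2 * X 0 * X 2 * (pderiv 3 (ζ 0) - pderiv 0 (ζ 3)) - 19 * X 2 * ζ 3,
      -(X 1 * X 2) * (pderiv 1 (ζ 3) - pderiv 3 (ζ 1))
        + 4 * X 0 * X 2 * (pderiv 3 (ζ 0) - pderiv 0 (ζ 3)) + 11 * X 2 * ζ 3,
      -(X 1 * X 2) * (X 3 ^ 5 + X 2 ^ 5) * (pderiv 1 (ζ 3) - pderiv 3 (ζ 1))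
        - 2 * X 0 * X 2 * (X 3 ^ 5 + X 2 ^ 5) * (pderiv 3 (ζ 0) - pderiv 0 (ζ 3))
        + 6 * X 0 * X 1 * X 2 * X 3 ^ 4 * (pderiv 0 (ζ 1) - pderiv 1 (ζ 0))
        + 18 * X 0 * X 2 * X 3 ^ 4 * ζ 0 - 12 * X 1 * X 2 * X 3 ^ 4 * ζ 1
        - X 2 * (X 3 ^ 5 + X 2 ^ 5) * ζ 3 - 6 * X 0 ^ 2 * X 1 ^ 3 * X 2 ^ 5 * X 3 ^ 4, ?_⟩
    have : Th (fun i => fo t i + C (t ^ 2) * ζ i) (fun i => fo t i + C (t ^ 2) * ζ i) 0 1 3 =
        Th (fo t) (fo t) 0 1 3 + C t ^ 2 * (Th (om B) ζ 0 1 3 + Th ζ (om B) 0 1 3)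
          + C t ^ 3 * (Th (et B) ζ 0 1 3 + Th ζ (et B) 0 1 3 + C t * Th ζ ζ 0 1 3) := by
      simp only [Th, fo, map_add, map_pow, pderiv_mul, pderiv_pow, pderiv_C]
      ring
    rw [this, hT]
    simp [Th, fo, om, et, pderiv_mul, pderiv_pow, pd2, pd3, pd4, pd5, pd6, -Derivation.leibniz,
      -Derivation.leibniz_pow]
    ring
  rw [h, coeff_C_mul]
  have e1 : (X 0 ^ 2 * X 1 ^ 3 * X 2 ^ 10 : MvPolynomial (Fin 4) B) = monomial mu 1 := by
    simp [mu, X_pow_eq_monomial, monomial_mul]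
  have e2 : (X 1 * X 2 ^ 6 : MvPolynomial (Fin 4) B) =
      monomial (Finsupp.single 1 1 + Finsupp.single 2 6) 1 := by
    rw [X_pow_eq_monomial, X, monomial_mul, one_mul]
  have e3 : (X 0 * X 2 ^ 6 : MvPolynomial (Fin 4) B) =
      monomial (Finsupp.single 0 1 + Finsupp.single 2 6) 1 := by
    rw [X_pow_eq_monomial, X, monomial_mul, one_mul]
  have c1 : coeff mu (-(X 0 ^ 2 * X 1 ^ 3 * X 2 ^ 10) : MvPolynomial (Fin 4) B) = -1 := by
    rw [e1]; simp
  have c2 : coeff mu (X 1 * X 2 ^ 6 * (X 0 * pderiv 0 (ζ 1) - 2 * ζ 1)) = 0 := by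
    rw [e2, coeff_monomial_mul']
    split_ifs
    · have h2 : (2 : MvPolynomial (Fin 4) B) = C 2 := by rw [map_ofNat]
      rw [coeff_sub, coeff_X_mul_pderiv, h2, coeff_C_mul]
      simp [mu]
    · rfl
  have c3 : coeff mu (X 0 * X 2 ^ 6 * (3 * ζ 0 - X 1 * pderiv 1 (ζ 0))) = 0 := by
    rw [e3, coeff_monomial_mul']
    split_ifs
    · have h2 : (3 : MvPolynomial (Fin 4) B) = C 3 := by rw [map_ofNat]
      rw [coeff_sub, coeff_X_mul_pderiv, h2, coeff_C_mul]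
      simp [mu]
    · rfl
  have c4 : coeff mu (X 0 ^ 6 * U) = 0 := by
    rw [X_pow_eq_monomial, coeff_monomial_mul', if_neg]
    simp [mu]
  have c5 : coeff mu (X 1 ^ 6 * V) = 0 := by
    rw [X_pow_eq_monomial, coeff_monomial_mul', if_neg]
    simp [mu]
  have c6 : coeff mu (X 3 * W) = 0 := by
    rw [coeff_X_mul', if_neg]
    simp [mu]
  simp only [coeff_add, c1, c2, c3, c4, c5, c6]
  ring

theorem map_om {B' : Type*} [CommRing B'] (f : B →+* B') (i : Fin 4) :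
    MvPolynomial.map f (om B i) = om B' i := by
  fin_cases i <;> simp [om, map_ofNat]

theorem map_et {B' : Type*} [CommRing B'] (f : B →+* B') (i : Fin 4) :
    MvPolynomial.map f (et B i) = et B' i := by
  fin_cases i <;> simp [et]

theorem hom_num (n : ℕ) [n.AtLeastTwo] {p : MvPolynomial (Fin 4) B} {d : ℕ}
    (hp : p.IsHomogeneous d) : (OfNat.ofNat n * p).IsHomogeneous d := by
  have : (OfNat.ofNat n : MvPolynomial (Fin 4) B) = C (OfNat.ofNat n) := by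
    rw [map_ofNat]
  rw [this]
  exact hp.C_mul _

theorem om_hom (i : Fin 4) : (om B i).IsHomogeneous 8 := by
  have h1 := fun j : Fin 4 => isHomogeneous_X B j
  have hp := fun (j : Fin 4) (n : ℕ) => isHomogeneous_X_pow (R := B) j n
  have hw : (X 3 * X 2 ^ 5 : MvPolynomial (Fin 4) B).IsHomogeneous 6 := (h1 3).mul (hp 2 5)
  fin_cases i
  · exact ((h1 1).mul (h1 2)).mul ((((hom_num 5 (hp 0 6)).sub (hp 1 6)).sub (hp 3 6)).sub hw)
  · exact ((h1 0).mul (h1 2)).mul ((((hom_num 4 (hp 1 6)).sub (hom_num 2 (hp 0 6))).sub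
      (hom_num 2 (hp 3 6))).sub (hom_num 2 hw))
  · exact ((h1 0).mul (h1 1)).mul ((((hom_num 2 hw).sub (hom_num 3 (hp 0 6))).sub
      (hom_num 3 (hp 1 6))).sub (hom_num 3 (hp 3 6)))
  · exact (((h1 0).mul (h1 1)).mul (h1 2)).mul ((hp 2 5).add (hom_num 6 (hp 3 5)))

theorem et_hom (i : Fin 4) : (et B i).IsHomogeneous 8 := by
  have h1 := fun j : Fin 4 => isHomogeneous_X B j
  have hp := fun (j : Fin 4) (n : ℕ) => isHomogeneous_X_pow (R := B) j n
  have hw : (X 3 * X 2 ^ 5 : MvPolynomial (Fin 4) B).IsHomogeneous 6 := (h1 3).mul (hp 2 5)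
  have hF := ((hw.add (hp 0 6)).add (hp 1 6)).add (hp 3 6)
  fin_cases i
  · exact ((h1 0).mul (hp 1 3)).mul (hp 2 4)
  · exact ((h1 0).mul (h1 2)).mul hF
  · exact (((hp 0 2).mul (hp 1 3)).mul (hp 2 3)).neg.sub (((h1 0).mul (h1 1)).mul hF)
  · exact isHomogeneous_zero _ _ _

theorem prod_map_X {σ : Type*} [DecidableEq σ] (s : Multiset σ) :
    (s.map (fun j => (X j : MvPolynomial σ B))).prod = monomial (Multiset.toFinsupp s) 1 := by
  induction s using Multiset.induction_on with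
  | empty => simp
  | cons a s ih =>
    rw [Multiset.map_cons, Multiset.prod_cons, ih, X, monomial_mul, one_mul,
      ← Multiset.singleton_add, Multiset.toFinsupp_add, Multiset.toFinsupp_singleton]

theorem sum_sym_eq {σ : Type*} [DecidableEq σ] [Fintype σ] {n : ℕ} (p : MvPolynomial σ B)
    (hp : p.IsHomogeneous n) :
    ∑ s : Sym σ n, C (coeff (Multiset.toFinsupp (s : Multiset σ)) p) *
      ((s : Multiset σ).map (fun j => (X j : MvPolynomial σ B))).prod = p := by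
  ext m
  simp only [prod_map_X, C_mul_monomial, mul_one, coeff_sum, coeff_monomial]
  by_cases hm : m.degree = n
  · have hc : Multiset.card (Finsupp.toMultiset m) = n := by
      rw [Finsupp.card_toMultiset, ← hm]
      rfl
    refine (Finset.sum_eq_single (⟨Finsupp.toMultiset m, hc⟩ : Sym σ n) ?_ ?_).trans ?_
    rotate_left
    · intro h
      exact absurd (Finset.mem_univ (α := Sym σ n) _) h
    · simp
    · intro s _ hs
      rw [if_neg]
      intro h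
      apply hs
      apply Subtype.ext
      change (s : Multiset σ) = Finsupp.toMultiset m
      rw [← h]
      simp
  · rw [hp.coeff_eq_zero hm]
    refine Finset.sum_eq_zero fun s _ => ?_
    rw [if_neg]
    intro h
    apply hm
    have : Multiset.card (Finsupp.toMultiset m) = n := by
      rw [← h]
      simp
    rw [Finsupp.card_toMultiset] at this
    exact this

end Pool.Agent.Lib.MP_63dc40_ag
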