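import Pool.Agent.Lib.MP_63dc40_ag.Dim
import Pool.Agent.Lib.MP_63dc40_ag.Forms

set_option autoImplicit false

namespace Pool.Agent.Lib.MP_63dc40_ag

open MvPolynomial

section
variable {S : Type} [CommRing S] [IsDomain S] [Algebra ℂ S] {k : ℕ}

omit [IsDomain S] in
theorem int_gen (u : Fin k → S) (j : Fin k) :
    IsIntegral (Algebra.adjoin ℂ (Set.range u)) (u j) :=
  isIntegral_algebraMap (R := Algebra.adjoin ℂ (Set.range u))
    (x := ⟨u j, Algebra.subset_adjoin ⟨j, rfl⟩⟩)

omit [IsDomain S] in
theorem int_const (A : Subalgebra ℂ S) (c : ℂ) : IsIntegral A (algebraMap ℂ S c) :=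
  isIntegral_algebraMap (R := A) (x := ⟨algebraMap ℂ S c, A.algebraMap_mem c⟩)

omit [IsDomain S] in
theorem int_num (A : Subalgebra ℂ S) (n : ℤ) : IsIntegral A (n : S) := by
  have := int_const A (n : ℂ)
  rwa [map_intCast] at this

omit [IsDomain S] in
/-- Solving a pure power equation with a nonzero integer coefficient. -/
theorem int_root (A : Subalgebra ℂ S) (a b : S) (n : ℕ) (hn : 0 < n) (m : ℤ) (hm : m ≠ 0)
    (h : (m : S) * a ^ n = b) (hb : IsIntegral A b) : IsIntegral A a := by
  refine IsIntegral.of_pow hn ?_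
  have hm' : (m : ℂ) ≠ 0 := by exact_mod_cast hm
  have : a ^ n = algebraMap ℂ S (m : ℂ)⁻¹ * b := by
    rw [← h, ← mul_assoc, ← map_intCast (algebraMap ℂ S) m, ← map_mul, inv_mul_cancel₀ hm',
      map_one, one_mul]
  rw [this]
  exact (int_const A _).mul hb

end

theorem sing_dim : ringKrullDim (MvPolynomial (Fin 4) ℂ ⧸ Ideal.span (Set.range (om ℂ)))
    ≤ ((2 : ℕ) : WithBot ℕ∞) := by
  refine dim_le _ 2 fun S _ _ _ x hx => ?_
  have : CharZero S := charZero_of_injective_algebraMap (algebraMap ℂ S).injective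
  have h0 := hx _ (Ideal.subset_span ⟨0, rfl⟩)
  have h1 := hx _ (Ideal.subset_span ⟨1, rfl⟩)
  have h2 := hx _ (Ideal.subset_span ⟨2, rfl⟩)
  have h3 := hx _ (Ideal.subset_span ⟨3, rfl⟩)
  simp only [om, Matrix.cons_val_zero, Matrix.cons_val_one, Matrix.cons_val, map_mul, map_sub,
    map_add, map_pow, aeval_X, map_ofNat] at h0 h1 h2 h3
  have fin : ∀ (u : Fin 2 → S), IsIntegral (Algebra.adjoin ℂ (Set.range u)) (x 0) →
      IsIntegral (Algebra.adjoin ℂ (Set.range u)) (x 1) →
      IsIntegral (Algebra.adjoin ℂ (Set.range u)) (x 2) →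
      IsIntegral (Algebra.adjoin ℂ (Set.range u)) (x 3) →
      ∃ u : Fin 2 → S, ∀ i, IsIntegral (Algebra.adjoin ℂ (Set.range u)) (x i) := by
    intro u a b c d
    refine ⟨u, fun i => ?_⟩
    fin_cases i <;> assumption
  by_cases hz : x 2 = 0
  · by_cases hxx : x 0 = 0
    · refine fin ![x 1, x 3] ?_ (int_gen _ 0) ?_ (int_gen _ 1)
      · rw [hxx]; exact isIntegral_zero
      · rw [hz]; exact isIntegral_zero
    · by_cases hy : x 1 = 0
      · refine fin ![x 0, x 3] (int_gen _ 0) ?_ ?_ (int_gen _ 1)
        · rw [hy]; exact isIntegral_zero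
        · rw [hz]; exact isIntegral_zero
      · have iy : IsIntegral (Algebra.adjoin ℂ (Set.range ![x 1, x 3])) (x 1) := int_gen _ 0
        have iw : IsIntegral (Algebra.adjoin ℂ (Set.range ![x 1, x 3])) (x 3) := int_gen _ 1
        refine fin ![x 1, x 3] ?_ iy ?_ iw
        · have e := (mul_eq_zero.1 h2).resolve_left (mul_ne_zero hxx hy)
          refine int_root _ _ (-(3 * x 1 ^ 6) - 3 * x 3 ^ 6) 6 (by norm_num) 3 (by norm_num) ?_ ?_
          · rw [hz] at e
            push_cast
            linear_combination -e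
          · have i3 := int_num (Algebra.adjoin ℂ (Set.range ![x 1, x 3])) 3
            push_cast at i3
            exact (i3.mul (iy.pow 6)).neg.sub (i3.mul (iw.pow 6))
        · rw [hz]; exact isIntegral_zero
  · have iz : IsIntegral (Algebra.adjoin ℂ (Set.range ![x 2, x 3])) (x 2) := int_gen _ 0
    have iw : IsIntegral (Algebra.adjoin ℂ (Set.range ![x 2, x 3])) (x 3) := int_gen _ 1
    have iq : IsIntegral (Algebra.adjoin ℂ (Set.range ![x 2, x 3]))
        (x 3 ^ 6 + x 3 * x 2 ^ 5) := (iw.pow 6).add (iw.mul (iz.pow 5))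
    by_cases hxx : x 0 = 0
    · by_cases hy : x 1 = 0
      · refine fin ![x 2, x 3] ?_ ?_ iz iw
        · rw [hxx]; exact isIntegral_zero
        · rw [hy]; exact isIntegral_zero
      · refine fin ![x 2, x 3] ?_ ?_ iz iw
        · rw [hxx]; exact isIntegral_zero
        · have e := (mul_eq_zero.1 h0).resolve_left (mul_ne_zero hy hz)
          refine int_root _ _ _ 6 (by norm_num) (-1) (by norm_num) ?_ iq
          rw [hxx] at e
          push_cast
          linear_combination e
    · have e1 := (mul_eq_zero.1 h1).resolve_left (mul_ne_zero hxx hz)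
      by_cases hy : x 1 = 0
      · refine fin ![x 2, x 3] ?_ ?_ iz iw
        · have i2 := int_num (Algebra.adjoin ℂ (Set.range ![x 2, x 3])) 2
          refine int_root _ _ _ 6 (by norm_num) (-2) (by norm_num) ?_ (i2.mul iq)
          rw [hy] at e1
          push_cast
          linear_combination e1
        · rw [hy]; exact isIntegral_zero
      · have e0 := (mul_eq_zero.1 h0).resolve_left (mul_ne_zero hy hz)
        have i6 := int_num (Algebra.adjoin ℂ (Set.range ![x 2, x 3])) 6
        have i12 := int_num (Algebra.adjoin ℂ (Set.range ![x 2, x 3])) 12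
        refine fin ![x 2, x 3] ?_ ?_ iz iw
        · refine int_root _ _ _ 6 (by norm_num) 18 (by norm_num) ?_ (i6.mul iq)
          push_cast
          linear_combination 4 * e0 + e1
        · refine int_root _ _ _ 6 (by norm_num) 18 (by norm_num) ?_ (i12.mul iq)
          push_cast
          linear_combination 2 * e0 + 5 * e1

theorem nk_dim : ringKrullDim (MvPolynomial (Fin 4) ℂ ⧸ Ideal.span (Set.range (om ℂ) ∪
      Set.range (fun p : Fin 4 × Fin 4 => pderiv p.1 (om ℂ p.2) - pderiv p.2 (om ℂ p.1))))
    ≤ ((1 : ℕ) : WithBot ℕ∞) := by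
  refine dim_le _ 1 fun S _ _ _ x hx => ?_
  have : CharZero S := charZero_of_injective_algebraMap (algebraMap ℂ S).injective
  have h01 := hx _ (Ideal.subset_span (Or.inr ⟨(0, 1), rfl⟩))
  have h02 := hx _ (Ideal.subset_span (Or.inr ⟨(0, 2), rfl⟩))
  have h03 := hx _ (Ideal.subset_span (Or.inr ⟨(0, 3), rfl⟩))
  have h12 := hx _ (Ideal.subset_span (Or.inr ⟨(1, 2), rfl⟩))
  have h13 := hx _ (Ideal.subset_span (Or.inr ⟨(1, 3), rfl⟩))
  have h23 := hx _ (Ideal.subset_span (Or.inr ⟨(2, 3), rfl⟩))
  simp only [d_om_01, d_om_02, d_om_03, d_om_12, d_om_13, d_om_23, map_mul, map_sub,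
    map_add, map_pow, aeval_X, map_ofNat] at h01 h02 h03 h12 h13 h23
  have fin : ∀ (u : Fin 1 → S), IsIntegral (Algebra.adjoin ℂ (Set.range u)) (x 0) →
      IsIntegral (Algebra.adjoin ℂ (Set.range u)) (x 1) →
      IsIntegral (Algebra.adjoin ℂ (Set.range u)) (x 2) →
      IsIntegral (Algebra.adjoin ℂ (Set.range u)) (x 3) →
      ∃ u : Fin 1 → S, ∀ i, IsIntegral (Algebra.adjoin ℂ (Set.range u)) (x i) := by
    intro u a b c d
    refine ⟨u, fun i => ?_⟩
    fin_cases i <;> assumption
  have iw : IsIntegral (Algebra.adjoin ℂ (Set.range ![x 3])) (x 3) := int_gen _ 0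
  have iw6 : ∀ m : ℤ, IsIntegral (Algebra.adjoin ℂ (Set.range ![x 3])) ((m : S) * x 3 ^ 6) :=
    fun m => (int_num _ m).mul (iw.pow 6)
  by_cases hz : x 2 = 0
  · rw [hz] at h02 h12 h23
    have iz : IsIntegral (Algebra.adjoin ℂ (Set.range ![x 3])) (x 2) := by
      rw [hz]; exact isIntegral_zero
    by_cases hxx : x 0 = 0
    · refine fin ![x 3] ?_ ?_ iz iw
      · rw [hxx]; exact isIntegral_zero
      · by_cases hy : x 1 = 0
        · rw [hy]; exact isIntegral_zero
        · have e := (mul_eq_zero.1 h02).resolve_left hy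
          refine int_root _ _ _ 6 (by norm_num) (-2) (by norm_num) ?_ (iw6 2)
          rw [hxx] at e
          push_cast
          linear_combination e
    · have e1 := (mul_eq_zero.1 h12).resolve_left hxx
      by_cases hy : x 1 = 0
      · refine fin ![x 3] ?_ ?_ iz iw
        · refine int_root _ _ _ 6 (by norm_num) (-1) (by norm_num) ?_ (iw6 1)
          rw [hy] at e1
          push_cast
          linear_combination e1
        · rw [hy]; exact isIntegral_zero
      · have e0 := (mul_eq_zero.1 h02).resolve_left hy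
        refine fin ![x 3] ?_ ?_ iz iw
        · refine int_root _ _ _ 6 (by norm_num) (-648) (by norm_num) ?_ (iw6 48)
          push_cast
          linear_combination 25 * e0 - 2 * e1
        · refine int_root _ _ _ 6 (by norm_num) (-648) (by norm_num) ?_ (iw6 24)
          push_cast
          linear_combination 26 * e1 - e0
  · have e01 := (mul_eq_zero.1 h01).resolve_left hz
    by_cases hF : x 2 ^ 5 + 6 * x 3 ^ 5 = 0
    · have iz : IsIntegral (Algebra.adjoin ℂ (Set.range ![x 3])) (x 2) := by
        refine int_root _ _ _ 5 (by norm_num) 1 (by norm_num) ?_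
          ((int_num _ (-6)).mul (iw.pow 5))
        push_cast
        linear_combination hF
      by_cases hy : x 1 = 0
      · refine fin ![x 3] ?_ ?_ iz iw
        · refine int_root _ _ _ 6 (by norm_num) 19 (by norm_num) ?_ (iw6 5)
          rw [hy] at e01
          push_cast
          linear_combination -e01 - x 3 * hF
        · rw [hy]; exact isIntegral_zero
      · have e02 := (mul_eq_zero.1 h02).resolve_left hy
        refine fin ![x 3] ?_ ?_ iz iw
        · refine int_root _ _ _ 6 (by norm_num) 324 (by norm_num) ?_ (iw6 (-540))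
          push_cast
          linear_combination (-2) * e01 - 11 * e02 + 86 * x 3 * hF
        · refine int_root _ _ _ 6 (by norm_num) 324 (by norm_num) ?_ (iw6 (-1080))
          push_cast
          linear_combination 26 * e01 - 19 * e02 + 178 * x 3 * hF
    · have hy : x 1 = 0 := by
        have := (mul_eq_zero.1 h03).resolve_right hF
        have := (mul_eq_zero.1 this).resolve_right hz
        exact (mul_eq_zero.1 this).resolve_left (by norm_num)
      have hxx : x 0 = 0 := by
        have := (mul_eq_zero.1 h13).resolve_right hF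
        have := (mul_eq_zero.1 this).resolve_right hz
        exact (mul_eq_zero.1 this).resolve_left (by norm_num)
      have iz : IsIntegral (Algebra.adjoin ℂ (Set.range ![x 2])) (x 2) := int_gen _ 0
      refine fin ![x 2] ?_ ?_ iz ?_
      · rw [hxx]; exact isIntegral_zero
      · rw [hy]; exact isIntegral_zero
      · by_cases hw : x 3 = 0
        · rw [hw]; exact isIntegral_zero
        · refine int_root _ _ _ 5 (by norm_num) (-1) (by norm_num) ?_ (iz.pow 5)
          rw [hxx, hy] at e01
          push_cast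
          apply mul_left_cancel₀ hw
          linear_combination e01

end Pool.Agent.Lib.MP_63dc40_ag
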