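import Mathlib

set_option autoImplicit false

namespace Pool.Agent.Lib.MP_63dc40_ag

open MvPolynomial

/-- An integral ring extension does not raise the Krull dimension. -/
theorem ringKrullDim_le_of_isIntegral (R S : Type*) [CommRing R] [CommRing S] [Algebra R S]
    [Algebra.IsIntegral R S] : ringKrullDim S ≤ ringKrullDim R := by
  refine Order.krullDim_le_of_strictMono
    (fun I : PrimeSpectrum S =>
      (⟨I.asIdeal.comap (algebraMap R S), inferInstance⟩ : PrimeSpectrum R)) ?_
  intro I J h
  exact Ideal.IsIntegral.comap_lt_comap (R := R) (I := I.asIdeal) (J := J.asIdeal) h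

/-- A bound for the quotients by all primes bounds the Krull dimension. -/
theorem ringKrullDim_le_of_forall_prime (R : Type*) [CommRing R] (n : WithBot ℕ∞)
    (h : ∀ p : Ideal R, p.IsPrime → ringKrullDim (R ⧸ p) ≤ n) : ringKrullDim R ≤ n := by
  rw [ringKrullDim, Order.krullDim]
  refine iSup_le fun s => ?_
  have hp := h s.head.asIdeal s.head.isPrime
  refine le_trans ?_ hp
  rw [ringKrullDim_quotient]
  let s' : LTSeries (PrimeSpectrum.zeroLocus (R := R) (s.head.asIdeal : Set R)) :=
    { length := s.length
      toFun := fun i => ⟨s i, by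
        have : s.head ≤ s i := s.head_le i
        exact this⟩
      step := fun i => s.step i }
  exact Order.LTSeries.length_le_krullDim s'

theorem ringKrullDim_adjoin_le (S : Type*) [CommRing S] [Algebra ℂ S] (k : ℕ) (u : Fin k → S) :
    ringKrullDim (Algebra.adjoin ℂ (Set.range u)) ≤ (k : WithBot ℕ∞) := by
  have h1 : ringKrullDim (MvPolynomial (Fin k) ℂ) = (k : WithBot ℕ∞) := by
    rw [MvPolynomial.ringKrullDim_of_isNoetherianRing, ringKrullDim_eq_zero_of_field]
    simp
  rw [← h1, Algebra.adjoin_range_eq_range_aeval]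
  exact ringKrullDim_le_of_surjective (aeval u).rangeRestrict.toRingHom
    (AlgHom.rangeRestrict_surjective _)

/-- Dimension bound for a quotient of a polynomial ring by checking integrality at every
point with values in a domain. -/
theorem dim_le {N : ℕ} (I : Ideal (MvPolynomial (Fin N) ℂ)) (k : ℕ)
    (h : ∀ (S : Type) [CommRing S] [IsDomain S] [Algebra ℂ S] (x : Fin N → S),
      (∀ f ∈ I, aeval x f = 0) →
      ∃ u : Fin k → S, ∀ i, IsIntegral (Algebra.adjoin ℂ (Set.range u)) (x i)) :
    ringKrullDim (MvPolynomial (Fin N) ℂ ⧸ I) ≤ (k : WithBot ℕ∞) := by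
  refine ringKrullDim_le_of_forall_prime _ _ fun p hp => ?_
  let S := (MvPolynomial (Fin N) ℂ ⧸ I) ⧸ p
  let π : MvPolynomial (Fin N) ℂ →ₐ[ℂ] S :=
    (Ideal.Quotient.mkₐ ℂ p).comp (Ideal.Quotient.mkₐ ℂ I)
  have hπ : Function.Surjective π :=
    (Ideal.Quotient.mkₐ_surjective ℂ p).comp (Ideal.Quotient.mkₐ_surjective ℂ I)
  have hπ' : ∀ f, aeval (fun i => π (X i)) f = π f := by
    intro f
    have : aeval (fun i => π (X i)) = π := by
      ext i; simp
    rw [this]
  obtain ⟨u, hu⟩ := h S (fun i => π (X i)) (by
    intro f hf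
    rw [hπ']
    simp [π, Ideal.Quotient.eq_zero_iff_mem.2 hf])
  have : Algebra.IsIntegral (Algebra.adjoin ℂ (Set.range u)) S := by
    constructor
    intro s
    obtain ⟨f, rfl⟩ := hπ s
    induction f using MvPolynomial.induction_on with
    | C a =>
      have : π (C a) = algebraMap (Algebra.adjoin ℂ (Set.range u)) S (algebraMap ℂ _ a) := by
        rw [← IsScalarTower.algebraMap_apply]
        exact π.commutes a
      rw [this]
      exact isIntegral_algebraMap
    | add p q hp hq => rw [map_add]; exact hp.add hq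
    | mul_X p i hp => rw [map_mul]; exact hp.mul (hu i)
  exact (ringKrullDim_le_of_isIntegral (Algebra.adjoin ℂ (Set.range u)) S).trans
    (ringKrullDim_adjoin_le S k u)

end Pool.Agent.Lib.MP_63dc40_ag
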